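import Mathlib
import Pool.Agent.MP_769310_ag.Main

set_option autoImplicit false

open Cardinal Pool.Agent.MP_769310_ag

namespace Pool.Agent.Results.MP_769310_ag.NoGap

universe u v w

/-- Let `K / k` be an extension of analytic fields and let `Ω` be the completion of an algebraic
closure of `K`. If the topological transcendence degree is uncountable, then it equals the
topological generating degree. -/
theorem result (k : Type u) (K : Type v) (Ω : Type w)
    [NormedField k] [IsUltrametricDist k] [CompleteSpace k]
    [NormedField K] [IsUltrametricDist K] [CompleteSpace K] [NormedAlgebra k K]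
    [NormedField Ω] [IsUltrametricDist Ω] [CompleteSpace Ω] [NormedAlgebra K Ω]
    [Algebra k Ω] [IsScalarTower k K Ω] [IsAlgClosed (algebraicClosure K Ω)]
    (hdense : Dense (algebraicClosure K Ω : Set Ω))
    (h : ℵ₁ ≤ topTrDeg k K Ω) : topTrDeg k K Ω = topGenDeg k K Ω :=
  le_antisymm (topTrDeg_le_topGenDeg hdense) ((topGenDeg_le_max hdense).trans (max_le le_rfl h))

end Pool.Agent.Results.MP_769310_ag.NoGap
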